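import Pool.Agent.R860.HD.Entire
import Pool.Agent.R860.HD.Harm

/-!
# The dimension dichotomy for Hardy spaces on planar domains fails
-/

set_option autoImplicit false

namespace Pool.Agent.Results.MP_4874ca_an.HardyDichotomy

open Set Filter Topology Complex InnerProductSpace Metric
open Pool.Agent.R860.HD

/-- `f` is holomorphic on `D` and `|f|²` has a harmonic majorant on `D`. -/
def IsHardy (D : Set ℂ) (f : D → ℂ) : Prop :=
  ∃ (F : ℂ → ℂ) (u : ℂ → ℝ), DifferentiableOn ℂ F D ∧ (∀ z : D, F z = f z) ∧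
    HarmonicOnNhd u D ∧ ∀ z ∈ D, ‖F z‖ ^ 2 ≤ u z

/-- The Hardy space `H²(D)`, as a space of functions on `D`. -/
def Hardy (D : Set ℂ) : Submodule ℂ (D → ℂ) where
  carrier := {f | IsHardy D f}
  zero_mem' := ⟨0, 0, differentiableOn_const 0, fun _ => rfl, harmonicOnNhd_const 0, by simp⟩
  add_mem' := by
    rintro f g ⟨F, u, hF, hFf, hu, hle⟩ ⟨G, v, hG, hGg, hv, hle'⟩
    refine ⟨F + G, (2 : ℝ) • (u + v), hF.add hG, fun z => by simp [hFf z, hGg z],
      (hu.add hv).const_smul, ?_⟩
    intro z hz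
    have h1 := hle z hz
    have h2 := hle' z hz
    have h3 := norm_add_le (F z) (G z)
    have h4 := norm_nonneg (F z)
    have h5 := norm_nonneg (G z)
    have h6 := norm_nonneg (F z + G z)
    simp only [Pi.add_apply, Pi.smul_apply, smul_eq_mul]
    nlinarith [sq_nonneg (‖F z‖ - ‖G z‖)]
  smul_mem' := by
    rintro c f ⟨F, u, hF, hFf, hu, hle⟩
    refine ⟨c • F, (‖c‖ ^ 2) • u, hF.const_smul c, fun z => by simp [hFf z],
      hu.const_smul, ?_⟩
    intro z hz
    have h1 := hle z hz
    simp only [Pi.smul_apply, smul_eq_mul, norm_mul, mul_pow]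
    gcongr

/-- The coordinate function belongs to the Hardy space of our domain. -/
theorem coord_mem : (fun z : DD 1424 => (z : ℂ)) ∈ Hardy (DD 1424) := by
  refine ⟨id, fun z => (4 : ℝ) • UU 1424 z + 356, differentiableOn_id, fun _ => rfl, ?_, ?_⟩
  · exact ((UU_harm (by norm_num)).const_smul).add (harmonicOnNhd_const 356)
  · intro z _
    exact UU_big le_rfl z

/-- The Hardy space of our domain has finite dimension. -/
theorem fin_dim : FiniteDimensional ℂ (Hardy (DD 1424)) := by
  obtain ⟨M, hM⟩ := poly (N := 1424) (by norm_num)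
  set S : Set (DD 1424 → ℂ) := Set.range fun n : Fin (M + 1) => fun z : DD 1424 => (z : ℂ) ^ (n : ℕ)
    with hS
  have hfin : FiniteDimensional ℂ (Submodule.span ℂ S) :=
    FiniteDimensional.span_of_finite ℂ (Set.finite_range _)
  have hle : Hardy (DD 1424) ≤ Submodule.span ℂ S := by
    rintro f ⟨F, u, hF, hFf, hu, hle⟩
    obtain ⟨c, hc⟩ := hM F u hF hu hle
    have e : f = ∑ n : Fin (M + 1), c n • fun z : DD 1424 => (z : ℂ) ^ (n : ℕ) := by
      funext z
      rw [← hFf z, hc z z.2, Finset.sum_apply, Finset.sum_range]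
      rfl
    rw [e]
    exact Submodule.sum_mem _ fun n _ => Submodule.smul_mem _ _
      (Submodule.subset_span ⟨n, rfl⟩)
  exact Submodule.finiteDimensional_of_le hle

/-- It is not true that the Hardy space `H²(D)` of every planar domain `D` is either trivial
(contains only constants) or infinite-dimensional. -/
theorem result : ¬ ∀ D : Set ℂ, IsOpen D → IsConnected D →
    (∀ f ∈ Hardy D, ∃ c : ℂ, ∀ z, f z = c) ∨ ¬ FiniteDimensional ℂ (Hardy D) := by
  intro h
  have hne : (DD 1424).Nonempty := by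
    refine ⟨((3 / 2 : ℝ) : ℂ), annulus_sub (by norm_num) 0 ?_ ?_⟩ <;>
      rw [Complex.norm_real, Real.norm_of_nonneg (by norm_num)] <;> norm_num
  rcases h (DD 1424) (DD_open (by norm_num)) ⟨hne, DD_conn (by norm_num)⟩ with h1 | h1
  · obtain ⟨c, hc⟩ := h1 _ coord_mem
    have m1 : ((3 / 2 : ℝ) : ℂ) ∈ DD 1424 := by
      apply annulus_sub (by norm_num) 0 <;>
      rw [Complex.norm_real, Real.norm_of_nonneg (by norm_num)] <;> norm_num
    have m2 : ((7 / 4 : ℝ) : ℂ) ∈ DD 1424 := by
      apply annulus_sub (by norm_num) 0 <;>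
      rw [Complex.norm_real, Real.norm_of_nonneg (by norm_num)] <;> norm_num
    have e1 := hc ⟨_, m1⟩
    have e2 := hc ⟨_, m2⟩
    simp only at e1 e2
    rw [← e2] at e1
    have e3 := Complex.ofReal_injective e1
    norm_num at e3
  · exact h1 fin_dim

end Pool.Agent.Results.MP_4874ca_an.HardyDichotomy
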